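import Pool.Agent.R473.ZJ.Final

/-!
# Odd zeta values whose digits are complex modulo the digits of the powers of `π`

If `ζ(j)` is a rational combination of `1, π, …, π^D`, then the digits of these numbers in every base satisfy a linear
relation of bounded order up to carries, and more generally every rational approximation of high quality of such a
relation is visible in the digits. The theorem says that at every scale, and for arbitrary bases `B_j`, at least `K` of
the odd zeta values `ζ(j)`, `j` in a window, have digits whose linear complexity is linear in the number of digits, even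
jointly with the digits of `π, π^2, …, π^D` (and even if `g + h S + ∑ f_i T_i = 0` is allowed to be a relation between
the digits of the powers of `π` only), and even after a bounded number of changes of digits. The powers of `π` can be
replaced by arbitrary real numbers `v_1, …, v_D` such that `1, v_1, …, v_D` have a polynomial measure of linear
independence.

The proof: a relation of order `k` for `L` digits gives, by Siegel's lemma and by dividing by `1 - B X`, an integer
linear form in `1, v_1, …, v_D, ζ(j)` with coefficients at most `B^(O(k))` and with a value at most `B^(O(k) - L)`. If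
only few `j` had a high complexity, the product of the coefficients of the `ζ(j)` in these forms would be a common
denominator contradicting the theorem on simultaneous approximation of the starting files
(`Pool/Agent/Results/MP_a89d6d_nt/OutsideSubspacesTwoThirds.lean`). Changes of digits are treated by a pigeonhole
argument over the scales `A^i`: some interval between consecutive scales contains no change, and the changes before it
are absorbed by a denominator.
-/

set_option autoImplicit false

open Pool.Agent.R473.ZJ

namespace Pool.Agent.Results.MP_a89d6d_nt.DigitsModuloPowersOfPi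

/-- **The digits of odd zeta values modulo the digits of `π, …, π^D`.** Let `K ≥ 1`,
`2^(132 (D + 1)) (b₀ + 1)² K³ log (K + 1) ≤ s²` and let `1, v_1, …, v_D` be real numbers with a polynomial measure of
linear independence, for instance (second part) `v_i = π^i`. There is a constant `A` such that, for every `e`, all bases
`B_j ≥ 2`, all lengths `L_j` and every `Λ` with `Λ ≤ L_j log B_j`, at least `K` of the odd `j` with `b₀ < j ≤ s` satisfy
`Λ ≤ A^(e+1) (N_j + 1) log B_j`, where `N_j` is the joint linear complexity of the first `L_j` digits of
`ζ(j), v_1, …, v_D` in base `B_j` after at most `e` changes of digits of each of these numbers. -/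
theorem result :
    (∀ b₀ K s D : ℕ, 1 ≤ K →
      (2 : ℝ) ^ (132 * (D + 1)) * ((b₀ : ℝ) + 1) ^ 2 * (K : ℝ) ^ 3 * Real.log (K + 1) ≤ (s : ℝ) ^ 2 →
      ∀ v : Fin D → ℝ, LMeas v →
      ∃ A : ℝ, 1 ≤ A ∧ ∀ (e : ℕ) (B L : ℕ → ℕ) (Λ : ℝ), (∀ j, 2 ≤ B j) →
        (∀ j, Λ ≤ L j * Real.log (B j)) →
        K ≤ Set.ncard {j : ℕ | b₀ < j ∧ j ≤ s ∧ Odd j ∧ Λ ≤ A ^ (e + 1) *
          ((complexity (B j) (∑' n : ℕ, 1 / ((n : ℝ) + 1) ^ j) v e (L j) + 1) *
            Real.log (B j))}) ∧
    ∀ D : ℕ, LMeas (fun i : Fin D => Real.pi ^ ((i : ℕ) + 1)) :=
  ⟨fun b₀ K s D hK hs v hv => windows b₀ K s D hK hs v hv,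
    fun D => lmeas_powers Real.pi (Pool.Agent.R473.JC.measT_three _ (Or.inr (Or.inl rfl))) D⟩

end Pool.Agent.Results.MP_a89d6d_nt.DigitsModuloPowersOfPi
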