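import Mathlib
import Pool.Agent.R346.EM.Meas

/-!
# An explicit measure of linear independence for `1, π ^ 2, ζ(3)` and explicit irrationality exponents

The starting file `MeasurePiSquaredZetaThree.lean` proves that some exponent works, without giving a value. Here the
exponents are explicit, and the dependence on the coefficient of `ζ(3)` is separated.

The determinants and their bounds are those of `Pool/Agent/H337R2/LZ/` and `Pool/Agent/H103R2/LM/`; new are the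
explicit bound for the potential of the zeta part on the poles (`R346/EM/FNc.lean`), the bounds with sharper error
terms (`R346/EM/Arch.lean`), the choice of the prime `n` and the final estimate (`R346/EM/Meas.lean`).
-/

set_option autoImplicit false

open Filter

namespace Pool.Agent.Results.MP_a89d6d_nt.ExplicitMeasure

/-- `ζ(3)` -/
noncomputable def z3 : ℝ := ∑' n : ℕ, 1 / ((n : ℝ) + 1) ^ 3

theorem base : ∃ c : ℝ, 0 < c ∧ ∀ a b d : ℤ, d ≠ 0 → ∀ m : ℝ, |(b : ℝ)| ≤ m → |(d : ℝ)| ≤ m →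
    c / (|(d : ℝ)| ^ 141 * m ^ 88) ≤ |(a : ℝ) + b * Real.pi ^ 2 + d * z3| := by
  obtain ⟨c, hc, h⟩ := Pool.Agent.R346.EM.measure_x
  refine ⟨c / 6 ^ 88, by positivity, ?_⟩
  intro a b d hd m hb hdm
  have hd1 : (0 : ℝ) < |(d : ℝ)| := abs_pos.2 (by exact_mod_cast hd)
  have hm : 0 < m := hd1.trans_le hdm
  have h1 := h a (6 * b) d hd (6 * m) (by
    push_cast
    rw [abs_mul, abs_of_pos (by norm_num : (0 : ℝ) < 6)]
    linarith) (by linarith)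
  have e2 : Pool.Agent.H337R2.zr 2 = Real.pi ^ 2 / 6 := Pool.Agent.LZ.Z2_value
  have e3 : Pool.Agent.H337R2.zr 3 = z3 := rfl
  rw [e2, e3] at h1
  have e4 : (a : ℝ) + ((6 * b : ℤ) : ℝ) * (Real.pi ^ 2 / 6) + d * z3 =
      (a : ℝ) + b * Real.pi ^ 2 + d * z3 := by
    push_cast
    ring
  rw [e4] at h1
  have e5 : |(d : ℝ)| ^ (-(141 : ℝ)) = (|(d : ℝ)| ^ 141)⁻¹ := by
    rw [Real.rpow_neg hd1.le]
    congr 1
    exact_mod_cast Real.rpow_natCast |(d : ℝ)| 141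
  have e6 : (6 * m) ^ (-(88 : ℝ)) = (6 ^ 88 * m ^ 88)⁻¹ := by
    rw [Real.rpow_neg (by positivity), ← mul_pow]
    congr 1
    exact_mod_cast Real.rpow_natCast (6 * m) 88
  rw [e5, e6] at h1
  refine le_trans (le_of_eq ?_) h1
  field_simp

theorem pi_sq_eq : Real.pi ^ 2 = 6 * Pool.Agent.H337R2.zr 2 := by
  rw [Pool.Agent.LZ.Z2_value]; ring

/-- `1, π ^ 2, ζ(3)` have no integer relation (starting result) -/
theorem indep (a b d : ℤ) (h : (a : ℝ) + b * Real.pi ^ 2 + d * z3 = 0) : a = 0 ∧ b = 0 ∧ d = 0 := by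
  have h1 := Pool.Agent.LZ.Z3_linind
  rw [Fintype.linearIndependent_iff] at h1
  have h2 := h1 ![(a : ℚ), 6 * b, d] (by
    rw [Fin.sum_univ_three]
    simp only [Matrix.cons_val_zero, Matrix.cons_val_one, Matrix.cons_val, Rat.smul_def]
    rw [pi_sq_eq] at h
    have e3 : Pool.Agent.H337R2.zr 3 = z3 := rfl
    rw [e3]
    push_cast
    linarith)
  have h0 := h2 0
  have h3 := h2 1
  have h4 := h2 2
  simp only [Matrix.cons_val_zero, Matrix.cons_val_one, Matrix.cons_val] at h0 h3 h4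
  refine ⟨by exact_mod_cast h0, ?_, by exact_mod_cast h4⟩
  have h5 : (b : ℚ) = 0 := by linarith
  exact_mod_cast h5

/-- lower bound for the distance to rational numbers -/
theorem dist_low (a₁ b₁ c₁ a₂ b₂ c₂ : ℤ) (hc : c₁ ≠ 0 ∨ c₂ ≠ 0)
    (hx : Irrational (((a₁ : ℝ) + b₁ * Real.pi ^ 2 + c₁ * z3) / (a₂ + b₂ * Real.pi ^ 2 + c₂ * z3))) :
    ∃ C : ℝ, 0 < C ∧ ∀ (n : ℕ) (m : ℤ), 1 ≤ n → C / (n : ℝ) ^ 230 ≤
      |((a₁ : ℝ) + b₁ * Real.pi ^ 2 + c₁ * z3) / (a₂ + b₂ * Real.pi ^ 2 + c₂ * z3) - m / n| := by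
  obtain ⟨c, hc0, h⟩ := base
  set L1 : ℝ := (a₁ : ℝ) + b₁ * Real.pi ^ 2 + c₁ * z3 with hL1
  set L2 : ℝ := (a₂ : ℝ) + b₂ * Real.pi ^ 2 + c₂ * z3 with hL2
  have hL2' : L2 ≠ 0 := by
    intro h0
    rw [h0, div_zero] at hx
    exact hx ⟨0, by simp⟩
  have hL2p : 0 < |L2| := abs_pos.2 hL2'
  set x : ℝ := L1 / L2 with hxd
  -- size of the coefficients
  set K : ℝ := |(b₁ : ℝ)| + |(c₁ : ℝ)| + (|(b₂ : ℝ)| + |(c₂ : ℝ)|) * (|x| + 1) + 1 with hK
  have hx0 := abs_nonneg x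
  have hK1 : 1 ≤ K := by
    have : 0 ≤ |(b₁ : ℝ)| + |(c₁ : ℝ)| + (|(b₂ : ℝ)| + |(c₂ : ℝ)|) * (|x| + 1) := by positivity
    linarith
  have hK0 : 0 < K := by linarith
  -- the exceptional fraction `c₁ / c₂`
  have hexc : ∃ δ : ℝ, 0 < δ ∧ ∀ (n : ℕ) (m : ℤ), 1 ≤ n → (n : ℤ) * c₁ = m * c₂ → δ ≤ |x - m / n| := by
    by_cases hc2 : c₂ = 0
    · refine ⟨1, one_pos, fun n m hn hnm => ?_⟩
      exfalso
      rw [hc2, mul_zero] at hnm
      rcases mul_eq_zero.1 hnm with h1 | h1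
      · omega
      · rcases hc with h2 | h2
        · exact h2 h1
        · exact h2 hc2
    · have hne : x ≠ (((c₁ : ℚ) / c₂ : ℚ) : ℝ) := by
        intro he
        exact hx ⟨_, he.symm⟩
      refine ⟨|x - (((c₁ : ℚ) / c₂ : ℚ) : ℝ)|, abs_pos.2 (sub_ne_zero.2 hne), fun n m hn hnm => ?_⟩
      have hnR : (n : ℝ) ≠ 0 := by
        have : n ≠ 0 := by omega
        exact_mod_cast this
      have hc2R : (c₂ : ℝ) ≠ 0 := by exact_mod_cast hc2
      have e1 : (m : ℝ) / n = (((c₁ : ℚ) / c₂ : ℚ) : ℝ) := by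
        push_cast
        rw [div_eq_div_iff hnR hc2R]
        have : ((n : ℤ) : ℝ) * c₁ = m * c₂ := by exact_mod_cast hnm
        push_cast at this
        linarith
      rw [e1]
  obtain ⟨δ, hδ, hexc⟩ := hexc
  refine ⟨min 1 (min δ (c / (K ^ 229 * |L2|))), by positivity, fun n m hn => ?_⟩
  set C : ℝ := min 1 (min δ (c / (K ^ 229 * |L2|))) with hC
  have hnR : (1 : ℝ) ≤ n := by exact_mod_cast hn
  have hn0 : (0 : ℝ) < n := by linarith
  have hnp : (1 : ℝ) ≤ (n : ℝ) ^ 230 := one_le_pow₀ hnR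
  have hC0 : 0 ≤ C := by positivity
  have hCn : C / (n : ℝ) ^ 230 ≤ C := div_le_self hC0 hnp
  by_cases hd : (n : ℤ) * c₁ = m * c₂
  · exact hCn.trans (((min_le_right _ _).trans (min_le_left _ _)).trans (hexc n m hn hd))
  by_cases hfar : 1 ≤ |x - m / n|
  · exact hCn.trans ((min_le_left _ _).trans hfar)
  push Not at hfar
  have hm : |(m : ℝ)| ≤ (|x| + 1) * n := by
    have h1 : |(m : ℝ) / n| ≤ |x| + 1 := by
      have := abs_sub_abs_le_abs_sub ((m : ℝ) / n) x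
      rw [abs_sub_comm] at this
      linarith
    rw [abs_div, abs_of_pos hn0, div_le_iff₀ hn0] at h1
    exact h1
  have hkey := h (n * a₁ - m * a₂) (n * b₁ - m * b₂) (n * c₁ - m * c₂) (sub_ne_zero.2 hd) (K * n) (by
      push_cast
      have h1 : |(n : ℝ) * b₁ - m * b₂| ≤ n * |(b₁ : ℝ)| + |(m : ℝ)| * |(b₂ : ℝ)| := by
        have := abs_sub ((n : ℝ) * b₁) (m * b₂)
        rw [abs_mul, abs_mul, abs_of_pos hn0] at this
        exact this
      have h2 : |(m : ℝ)| * |(b₂ : ℝ)| ≤ (|x| + 1) * n * |(b₂ : ℝ)| :=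
        mul_le_mul_of_nonneg_right hm (abs_nonneg _)
      have h3 : 0 ≤ |(c₂ : ℝ)| * (|x| + 1) := by positivity
      have h4 : K * n = n * |(b₁ : ℝ)| + n * |(c₁ : ℝ)| + (|x| + 1) * n * |(b₂ : ℝ)| +
        n * (|(c₂ : ℝ)| * (|x| + 1)) + n := by rw [hK]; ring
      have h5 : 0 ≤ n * |(c₁ : ℝ)| := by positivity
      have h6 : 0 ≤ n * (|(c₂ : ℝ)| * (|x| + 1)) := by positivity
      rw [h4]
      linarith) (by
      push_cast
      have h1 : |(n : ℝ) * c₁ - m * c₂| ≤ n * |(c₁ : ℝ)| + |(m : ℝ)| * |(c₂ : ℝ)| := by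
        have := abs_sub ((n : ℝ) * c₁) (m * c₂)
        rw [abs_mul, abs_mul, abs_of_pos hn0] at this
        exact this
      have h2 : |(m : ℝ)| * |(c₂ : ℝ)| ≤ (|x| + 1) * n * |(c₂ : ℝ)| :=
        mul_le_mul_of_nonneg_right hm (abs_nonneg _)
      have h4 : K * n = n * |(b₁ : ℝ)| + n * |(c₁ : ℝ)| + (|x| + 1) * n * |(c₂ : ℝ)| +
        n * (|(b₂ : ℝ)| * (|x| + 1)) + n := by rw [hK]; ring
      have h5 : 0 ≤ n * |(b₁ : ℝ)| := by positivity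
      have h6 : 0 ≤ n * (|(b₂ : ℝ)| * (|x| + 1)) := by positivity
      rw [h4]
      linarith)
  have hdK : |(((n * c₁ - m * c₂ : ℤ)) : ℝ)| ≤ K * n := by
    push_cast
    have h1 : |(n : ℝ) * c₁ - m * c₂| ≤ n * |(c₁ : ℝ)| + |(m : ℝ)| * |(c₂ : ℝ)| := by
      have := abs_sub ((n : ℝ) * c₁) (m * c₂)
      rw [abs_mul, abs_mul, abs_of_pos hn0] at this
      exact this
    have h2 : |(m : ℝ)| * |(c₂ : ℝ)| ≤ (|x| + 1) * n * |(c₂ : ℝ)| :=
      mul_le_mul_of_nonneg_right hm (abs_nonneg _)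
    have h4 : K * n = n * |(b₁ : ℝ)| + n * |(c₁ : ℝ)| + (|x| + 1) * n * |(c₂ : ℝ)| +
      n * (|(b₂ : ℝ)| * (|x| + 1)) + n := by rw [hK]; ring
    have h5 : 0 ≤ n * |(b₁ : ℝ)| := by positivity
    have h6 : 0 ≤ n * (|(b₂ : ℝ)| * (|x| + 1)) := by positivity
    rw [h4]
    linarith
  have hd0 : 0 < |(((n * c₁ - m * c₂ : ℤ)) : ℝ)| := abs_pos.2 (by exact_mod_cast sub_ne_zero.2 hd)
  have hlow : c / (K * n) ^ 229 ≤ |(n : ℝ) * L1 - m * L2| := by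
    have e1 : ((n * a₁ - m * a₂ : ℤ) : ℝ) + ((n * b₁ - m * b₂ : ℤ) : ℝ) * Real.pi ^ 2 +
        ((n * c₁ - m * c₂ : ℤ) : ℝ) * z3 = (n : ℝ) * L1 - m * L2 := by
      rw [hL1, hL2]
      push_cast
      ring
    rw [e1] at hkey
    refine le_trans ?_ hkey
    apply div_le_div_of_nonneg_left hc0.le (by positivity)
    calc |(((n * c₁ - m * c₂ : ℤ)) : ℝ)| ^ 141 * (K * n) ^ 88 ≤ (K * n) ^ 141 * (K * n) ^ 88 := by
          gcongr
      _ = (K * n) ^ 229 := by rw [← pow_add]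
  have hid : x - m / n = (n * L1 - m * L2) / (n * L2) := by
    rw [hxd]
    field_simp
  rw [hid, abs_div, abs_mul, abs_of_pos hn0, le_div_iff₀ (by positivity)]
  refine le_trans ?_ hlow
  have hCle : C ≤ c / (K ^ 229 * |L2|) := (min_le_right _ _).trans (min_le_right _ _)
  have hgen : ∀ A B l x : ℝ, 0 < A → 0 < B → 0 < l → 0 < x → c / (A * l) / (B * x) * (x * l) = c / (A * B) := by
    intro A B l x hA hB hl hx
    field_simp
  calc C / (n : ℝ) ^ 230 * (n * |L2|) ≤ c / (K ^ 229 * |L2|) / (n : ℝ) ^ 230 * (n * |L2|) := by gcongr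
    _ = c / (K ^ 229 * |L2|) / ((n : ℝ) ^ 229 * n) * (n * |L2|) := by rw [← pow_succ]
    _ = c / (K ^ 229 * (n : ℝ) ^ 229) := hgen _ _ _ _ (by positivity) (by positivity) hL2p hn0
    _ = c / (K * n) ^ 229 := by rw [mul_pow]

/-- **Explicit measures for `1, π ^ 2, ζ(3)`.**

1. There is `c > 0` such that `|a + b π ^ 2 + d ζ(3)| ≥ c / (|d| ^ 141 * max(|b|, |d|) ^ 88)` for all integers
`a, b, d` with `d ≠ 0`.

2. Let `a₁, b₁, c₁, a₂, b₂, c₂` be integers, the vectors `(a₁, b₁, c₁)`, `(a₂, b₂, c₂)` not proportional and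
`(c₁, c₂) ≠ (0, 0)`. Then `x = (a₁ + b₁ π ^ 2 + c₁ ζ(3)) / (a₂ + b₂ π ^ 2 + c₂ ζ(3))` is irrational and its
irrationality exponent is at most `230`. This applies to `ζ(3) + s π ^ 2` and `(ζ(3) + s) / π ^ 2` for every
rational `s`. -/
theorem result :
    (∃ c : ℝ, 0 < c ∧ ∀ a b d : ℤ, d ≠ 0 →
      c / (|(d : ℝ)| ^ 141 * (max |(b : ℝ)| |(d : ℝ)|) ^ 88) ≤
        |(a : ℝ) + b * Real.pi ^ 2 + d * (∑' n : ℕ, 1 / ((n : ℝ) + 1) ^ 3)|) ∧
    (∀ a₁ b₁ c₁ a₂ b₂ c₂ : ℤ, (c₁ ≠ 0 ∨ c₂ ≠ 0) →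
      (a₁ * b₂ ≠ a₂ * b₁ ∨ a₁ * c₂ ≠ a₂ * c₁ ∨ b₁ * c₂ ≠ b₂ * c₁) →
      Irrational (((a₁ : ℝ) + b₁ * Real.pi ^ 2 + c₁ * (∑' n : ℕ, 1 / ((n : ℝ) + 1) ^ 3)) /
        (a₂ + b₂ * Real.pi ^ 2 + c₂ * (∑' n : ℕ, 1 / ((n : ℝ) + 1) ^ 3))) ∧
      ∀ κ : ℝ, 230 < κ → ¬ LiouvilleWith κ
        (((a₁ : ℝ) + b₁ * Real.pi ^ 2 + c₁ * (∑' n : ℕ, 1 / ((n : ℝ) + 1) ^ 3)) /
          (a₂ + b₂ * Real.pi ^ 2 + c₂ * (∑' n : ℕ, 1 / ((n : ℝ) + 1) ^ 3)))) := by
  refine ⟨?_, ?_⟩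
  · obtain ⟨c, hc, h⟩ := base
    exact ⟨c, hc, fun a b d hd => h a b d hd _ (le_max_left _ _) (le_max_right _ _)⟩
  · intro a₁ b₁ c₁ a₂ b₂ c₂ hc hprop
    change Irrational (((a₁ : ℝ) + b₁ * Real.pi ^ 2 + c₁ * z3) / (a₂ + b₂ * Real.pi ^ 2 + c₂ * z3)) ∧
      ∀ κ : ℝ, 230 < κ → ¬ LiouvilleWith κ
        (((a₁ : ℝ) + b₁ * Real.pi ^ 2 + c₁ * z3) / (a₂ + b₂ * Real.pi ^ 2 + c₂ * z3))
    have hL2 : (a₂ : ℝ) + b₂ * Real.pi ^ 2 + c₂ * z3 ≠ 0 := by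
      intro h0
      obtain ⟨h1, h2, h3⟩ := indep a₂ b₂ c₂ h0
      subst h1 h2 h3
      simp at hprop
    have hirr : Irrational (((a₁ : ℝ) + b₁ * Real.pi ^ 2 + c₁ * z3) /
        (a₂ + b₂ * Real.pi ^ 2 + c₂ * z3)) := by
      rintro ⟨r, hr⟩
      have hr' : ((r.num : ℤ) : ℝ) / (r.den : ℝ) = ((a₁ : ℝ) + b₁ * Real.pi ^ 2 + c₁ * z3) /
          (a₂ + b₂ * Real.pi ^ 2 + c₂ * z3) := by
        rw [← hr]
        exact_mod_cast (Rat.num_div_den r)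
      have hden : (r.den : ℝ) ≠ 0 := by exact_mod_cast r.den_nz
      rw [div_eq_div_iff hden hL2] at hr'
      obtain ⟨h1, h2, h3⟩ := indep (r.den * a₁ - r.num * a₂) (r.den * b₁ - r.num * b₂)
        (r.den * c₁ - r.num * c₂) (by push_cast; linarith)
      have hD : (r.den : ℤ) ≠ 0 := by exact_mod_cast r.den_nz
      rcases hprop with h | h | h
      · apply h
        apply mul_left_cancel₀ hD
        linear_combination b₂ * h1 - a₂ * h2
      · apply h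
        apply mul_left_cancel₀ hD
        linear_combination c₂ * h1 - a₂ * h3
      · apply h
        apply mul_left_cancel₀ hD
        linear_combination c₂ * h2 - b₂ * h3
    refine ⟨hirr, fun κ hκ hL => ?_⟩
    obtain ⟨C, hC, h⟩ := dist_low a₁ b₁ c₁ a₂ b₂ c₂ hc hirr
    set q : ℝ := (230 + κ) / 2 with hq
    have hq1 : 230 < q := by rw [hq]; linarith
    have hq2 : q < κ := by rw [hq]; linarith
    have hfr := hL.frequently_lt_rpow_neg hq2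
    have hev : ∀ᶠ n : ℕ in atTop, (n : ℝ) ^ (-q) < C / (n : ℝ) ^ 230 := by
      have h1 : Tendsto (fun n : ℕ => (n : ℝ) ^ (-(q - 230))) atTop (nhds 0) :=
        (tendsto_rpow_neg_atTop (by linarith : 0 < q - 230)).comp tendsto_natCast_atTop_atTop
      filter_upwards [h1.eventually (gt_mem_nhds hC), eventually_ge_atTop 1] with n h2 h3
      have hn0 : (0 : ℝ) < n := by exact_mod_cast h3
      rw [lt_div_iff₀ (by positivity), ← Real.rpow_natCast, ← Real.rpow_add hn0]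
      have e1 : -q + ((230 : ℕ) : ℝ) = -(q - 230) := by push_cast; ring
      rw [e1]
      exact h2
    obtain ⟨n, hn, hn1, m, -, hlt⟩ := (hfr.and_eventually (hev.and (eventually_ge_atTop 1))).exists.imp
      fun n hn => (⟨hn.2.1, hn.2.2, hn.1⟩ : _ ∧ _ ∧ _)
    exact absurd (h n m hn1) (not_le.2 (hlt.trans hn))

end Pool.Agent.Results.MP_a89d6d_nt.ExplicitMeasure
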