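import Pool.Agent.R347.LC.Main
import Pool.Agent.R347.LF.Ex
import Pool.Agent.R347.LF.Main
import Pool.Agent.TH456.TM.Inst
import Pool.Agent.Results.MP_a89d6d_nt.ExplicitMeasure
import Pool.Agent.Results.MP_a89d6d_nt.SpaceDistanceZeta75
import Pool.Agent.Results.MP_c2395a_nt.PlaneDistanceZeta7
import Pool.Agent.Results.MP_c2395a_nt.ZetaFiveMeasureSharp

/-!
# `π` and odd zeta values over fields generated by Liouville numbers

Let `q_0, q_1, …` be integers `≥ 2`. A real number `x` is *approximable* if for some `h` and every `κ` there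
are, for all large `k`, integers `u` and `1 ≤ v ≤ q_k ^ h` with `|x - u / v| ≤ q_k ^ (-κ)`. The approximable
numbers form a field. Every Liouville number `ξ` is approximable for some sequence, so that `ℚ(ξ)` is contained in
such a field; for `q_k = 2 ^ ((k + 2)!)` the field has transcendence degree the cardinality of the continuum.

**Theorem.** Let `L` be a field of approximable numbers, for example `ℚ(ξ)` for any Liouville number `ξ`. Then
* `π` is transcendental over `L`;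
* `1`, `π ^ 2`, `ζ(3)` are linearly independent over `L`;
* `ζ(5)` is not in `L`;
* for every real `θ` (for example `π`), not all of `ζ(3), ζ(5), ζ(7)` are in `L + L θ`;
* for all real `θ₁, θ₂` (for example `π` and `π ^ 2`), not all of `ζ(3), ζ(5), …, ζ(75)` are in
  `L + L θ₁ + L θ₂`.

In particular, for every Liouville number `ξ`, the numbers `ξ, π, ζ(3)` satisfy no polynomial relation
`A(ξ) + B(ξ) π ^ 2 + C(ξ) ζ(3) = 0`, and `ξ, π` are algebraically independent.

The proof replaces the coefficients by rational numbers with a common denominator and uses the measures for these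
numbers in the starting files, see `Pool/Agent/R347/LC/Main.lean`.
-/

set_option autoImplicit false

namespace Pool.Agent.Results.MP_a89d6d_nt.LiouvilleCoefficients

/-- For some `h` and every `κ`, for all large `k`, there are integers `u` and `1 ≤ v ≤ (q k) ^ h` with
`|x - u / v| ≤ (q k) ^ (-κ)`. -/
def Approximable (q : ℕ → ℕ) (x : ℝ) : Prop :=
  ∃ h : ℕ, ∀ κ : ℕ, ∃ k₀ : ℕ, ∀ k ≥ k₀, ∃ (u : ℤ) (v : ℕ), 1 ≤ v ∧ v ≤ q k ^ h ∧
    |x - (u : ℝ) / v| ≤ (((q k : ℕ) : ℝ) ^ κ)⁻¹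

/-- The value `ζ(j)`, for `j ≥ 2`. -/
noncomputable def zetaValue (j : ℕ) : ℝ := ∑' n : ℕ, 1 / ((n : ℝ) + 1) ^ j

/-- For every real `θ` one of `ζ(3), ζ(5), ζ(7)` is not in `L + L θ`. -/
def PlaneProperty (L : IntermediateField ℚ ℝ) : Prop :=
  ∀ θ : ℝ, ∃ i : ℕ, (i = 3 ∨ i = 5 ∨ i = 7) ∧ ∀ α ∈ L, ∀ β ∈ L, zetaValue i ≠ α + β * θ

/-- For all real `θ₁, θ₂` one of `ζ(3), ζ(5), …, ζ(75)` is not in `L + L θ₁ + L θ₂`. -/
def SpaceProperty (L : IntermediateField ℚ ℝ) : Prop :=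
  ∀ θ₁ θ₂ : ℝ, ∃ i : ℕ, Odd i ∧ 3 ≤ i ∧ i ≤ 75 ∧
    ∀ α ∈ L, ∀ β₁ ∈ L, ∀ β₂ ∈ L, zetaValue i ≠ α + β₁ * θ₁ + β₂ * θ₂

/-- The number `π` is transcendental over `L`; the numbers `1`, `π ^ 2`, `ζ(3)` are linearly independent over `L`;
`ζ(5)` is not in `L`; and the two properties above. -/
def Good (L : IntermediateField ℚ ℝ) : Prop :=
  Transcendental L Real.pi ∧ LinearIndependent L ![(1 : ℝ), Real.pi ^ 2, zetaValue 3] ∧
    zetaValue 5 ∉ L ∧ PlaneProperty L ∧ SpaceProperty L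

/-- The sequence `2 ^ ((k + 2)!)`. -/
def q₀ (k : ℕ) : ℕ := 2 ^ (k + 2).factorial

theorem trans_pi {q : ℕ → ℕ} (hq : ∀ k, 2 ≤ q k) (L : IntermediateField ℚ ℝ)
    (hL : ∀ x ∈ L, Approximable q x) : Transcendental L Real.pi := by
  refine Pool.Agent.R347.LC.trans hq L hL fun D => ?_
  obtain ⟨κ, c, hκ, hc, h⟩ := Pool.Agent.TH456.TM.measT_pi D
  obtain ⟨N, hN⟩ := exists_nat_ge κ
  refine ⟨c, N, hc, fun m H hm hH hmH => ?_⟩
  set P : Polynomial ℤ := ∑ i : Fin (D + 1), Polynomial.C (m i) * Polynomial.X ^ (i : ℕ) with hP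
  have hcoeff : ∀ j, P.coeff j = if hj : j < D + 1 then m ⟨j, hj⟩ else 0 := by
    intro j
    rw [hP, Polynomial.finsetSum_coeff]
    simp only [Polynomial.coeff_C_mul, Polynomial.coeff_X_pow]
    by_cases hj : j < D + 1
    · rw [dif_pos hj, Finset.sum_eq_single (⟨j, hj⟩ : Fin (D + 1))]
      · simp
      · intro i _ hi
        rw [if_neg, mul_zero]
        exact fun h => hi (Fin.ext h.symm)
      · intro h
        exact absurd (Finset.mem_univ _) h
    · rw [dif_neg hj]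
      refine Finset.sum_eq_zero fun i _ => ?_
      rw [if_neg, mul_zero]
      have := i.2
      omega
  have h1 := h P (by
    intro h0
    apply hm
    funext i
    have h2 := hcoeff i
    rw [h0, Polynomial.coeff_zero, dif_pos i.2] at h2
    exact h2.symm) (by
    rw [Polynomial.natDegree_le_iff_coeff_eq_zero]
    intro j hj
    rw [hcoeff, dif_neg (by omega)]) H hH (by
    intro j
    rw [hcoeff]
    split_ifs with hj
    · exact hmH _
    · simp only [Int.cast_zero, abs_zero]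
      linarith)
  have h2 : Polynomial.aeval (Real.pi : ℂ) P = ((∑ i, (m i : ℝ) * Real.pi ^ (i : ℕ) : ℝ) : ℂ) := by
    rw [hP, map_sum]
    push_cast
    refine Finset.sum_congr rfl fun i _ => ?_
    simp
  rw [h2, Complex.norm_real, Real.norm_eq_abs] at h1
  refine h1.trans (mul_le_mul_of_nonneg_right ?_ (abs_nonneg _))
  rw [← Real.rpow_natCast]
  exact Real.rpow_le_rpow_of_exponent_le hH hN

theorem lin_three {q : ℕ → ℕ} (hq : ∀ k, 2 ≤ q k) (L : IntermediateField ℚ ℝ)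
    (hL : ∀ x ∈ L, Approximable q x) :
    LinearIndependent L ![(1 : ℝ), Real.pi ^ 2, zetaValue 3] := by
  refine Pool.Agent.R347.LC.lin3 hq L hL ?_ ?_
  · intro hmem
    refine trans_pi hq L hL ⟨Polynomial.X ^ 2 - Polynomial.C ⟨Real.pi ^ 2, hmem⟩, ?_, ?_⟩
    · exact Polynomial.X_pow_sub_C_ne_zero (by norm_num) _
    · simp only [map_sub, map_pow, Polynomial.aeval_X, Polynomial.aeval_C]
      exact sub_self _
  · obtain ⟨c, hc, h⟩ := Pool.Agent.Results.MP_a89d6d_nt.ExplicitMeasure.base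
    refine ⟨c, 229, hc, fun a b d H hd hH hb hdH => ?_⟩
    have h1 := h a b d hd H hb hdH
    have hd0 : (0 : ℝ) < |(d : ℝ)| := abs_pos.2 (by exact_mod_cast hd)
    have h2 : |(d : ℝ)| ^ 141 * H ^ 88 ≤ H ^ 229 := by
      calc |(d : ℝ)| ^ 141 * H ^ 88 ≤ H ^ 141 * H ^ 88 :=
            mul_le_mul_of_nonneg_right (pow_le_pow_left₀ (abs_nonneg _) hdH _) (by positivity)
        _ = H ^ 229 := by rw [← pow_add]
    rw [div_le_iff₀ (by positivity)] at h1
    calc c ≤ _ := h1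
      _ ≤ |(a : ℝ) + b * Real.pi ^ 2 + d * zetaValue 3| * H ^ 229 :=
          mul_le_mul_of_nonneg_left h2 (abs_nonneg _)
      _ = _ := mul_comm _ _

theorem zeta_five {q : ℕ → ℕ} (hq : ∀ k, 2 ≤ q k) (L : IntermediateField ℚ ℝ)
    (hL : ∀ x ∈ L, Approximable q x) : zetaValue 5 ∉ L := by
  intro hmem
  obtain ⟨c, hc, h⟩ := Pool.Agent.Results.MP_c2395a_nt.ZetaFiveMeasureSharp.result
  obtain ⟨i, hi⟩ := Pool.Agent.R347.LC.space hq L hL (ι := Unit) (τ := Empty)
    (fun _ => zetaValue 5) (fun _ => 0) ⟨c, 83, hc, by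
      intro v a b H hv hvH _
      refine ⟨(), ?_⟩
      have h1 := h (a ()) v hv
      have hv0 : (0 : ℝ) < v := by exact_mod_cast hv
      simp only [Finset.univ_eq_empty, Finset.sum_empty, add_zero]
      refine le_trans ?_ h1
      exact div_le_div_of_nonneg_left hc.le (by positivity) (pow_le_pow_left₀ hv0.le hvH _)⟩
  exact hi _ hmem (fun _ => 0) (by simp)

theorem plane_prop {q : ℕ → ℕ} (hq : ∀ k, 2 ≤ q k) (L : IntermediateField ℚ ℝ)
    (hL : ∀ x ∈ L, Approximable q x) : PlaneProperty L := by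
  intro θ
  obtain ⟨c, hc, h⟩ := Pool.Agent.Results.MP_c2395a_nt.PlaneDistanceZeta7.result.1
  obtain ⟨i, hi⟩ := Pool.Agent.R347.LC.space hq L hL (ι := Fin 3) (τ := Unit)
    (fun i => zetaValue (2 * i.1 + 3)) (fun _ => θ) ⟨c, 1070, hc, by
      intro v a b H hv hvH hb
      obtain ⟨j, hj, hle⟩ := h v (fun j => a (if j = 3 then 0 else if j = 5 then 1 else 2))
        (fun j => b (if j = 3 then 0 else if j = 5 then 1 else 2) ()) θ H hv hvH
        (hb _ _) (hb _ _) (hb _ _)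
      rcases hj with rfl | rfl | rfl
      · exact ⟨0, by simpa [zetaValue] using hle⟩
      · exact ⟨1, by simpa [zetaValue] using hle⟩
      · exact ⟨2, by simpa [zetaValue] using hle⟩⟩
  refine ⟨2 * i.1 + 3, by have := i.2; omega, fun α hα β hβ => ?_⟩
  have := hi α hα (fun _ => ⟨β, hβ⟩)
  simpa using this

theorem space_prop {q : ℕ → ℕ} (hq : ∀ k, 2 ≤ q k) (L : IntermediateField ℚ ℝ)
    (hL : ∀ x ∈ L, Approximable q x) : SpaceProperty L := by
  intro θ₁ θ₂
  obtain ⟨c, hc, h⟩ := Pool.Agent.Results.MP_a89d6d_nt.SpaceDistanceZeta75.result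
  obtain ⟨i, hi⟩ := Pool.Agent.R347.LC.space hq L hL (ι := Fin 37) (τ := Fin 2)
    (fun i => zetaValue (2 * i.1 + 3)) ![θ₁, θ₂] ⟨c, 6180, hc, by
      intro v a b H hv hvH hb
      obtain ⟨j, hj, hj3, hj75, hle⟩ := h v (fun j => a (Fin.ofNat 37 ((j - 3) / 2)))
        (fun j => b (Fin.ofNat 37 ((j - 3) / 2)) 0) (fun j => b (Fin.ofNat 37 ((j - 3) / 2)) 1)
        θ₁ θ₂ H hv hvH (fun _ _ _ _ => hb _ _) (fun _ _ _ _ => hb _ _)
      refine ⟨Fin.ofNat 37 ((j - 3) / 2), ?_⟩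
      have h2 : 2 * (Fin.ofNat 37 ((j - 3) / 2)).1 + 3 = j := by
        obtain ⟨l, rfl⟩ := hj
        simp only [Fin.ofNat]
        omega
      rw [Fin.sum_univ_two]
      simp only [Matrix.cons_val_zero, Matrix.cons_val_one]
      rw [h2, ← add_assoc]
      exact hle⟩
  refine ⟨2 * i.1 + 3, ⟨i.1 + 1, by ring⟩, by omega, by have := i.2; omega,
    fun α hα β₁ hβ₁ β₂ hβ₂ => ?_⟩
  have := hi α hα ![⟨β₁, hβ₁⟩, ⟨β₂, hβ₂⟩]
  rw [Fin.sum_univ_two] at this
  simpa [add_assoc] using this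

theorem good_of {q : ℕ → ℕ} (hq : ∀ k, 2 ≤ q k) (L : IntermediateField ℚ ℝ)
    (hL : ∀ x ∈ L, Approximable q x) : Good L :=
  ⟨trans_pi hq L hL, lin_three hq L hL, zeta_five hq L hL, plane_prop hq L hL, space_prop hq L hL⟩

theorem ap_iff {q : ℕ → ℕ} (hq : ∀ k, 2 ≤ q k) (x : ℝ) :
    Approximable q x ↔ Pool.Agent.R347.LF.Ap q (⊥ : IntermediateField ℚ ℝ) x :=
  Pool.Agent.R347.LC.ra_iff hq x

/-- **Main result.** -/
theorem result :
    -- the approximable numbers form a field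
    (∀ q : ℕ → ℕ, (∀ k, 2 ≤ q k) → ∃ L : IntermediateField ℚ ℝ, ∀ x, x ∈ L ↔ Approximable q x) ∧
    -- the transcendence degree of the field for the explicit sequence
    ((∀ k, 2 ≤ q₀ k) ∧ ∀ L : IntermediateField ℚ ℝ, (∀ x, x ∈ L ↔ Approximable q₀ x) →
      Algebra.trdeg ℚ L = Cardinal.continuum) ∧
    -- `π` and odd zeta values over fields of approximable numbers
    (∀ q : ℕ → ℕ, (∀ k, 2 ≤ q k) → ∀ L : IntermediateField ℚ ℝ, (∀ x ∈ L, Approximable q x) →
      Good L) ∧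
    -- in particular over the field `ℚ(ξ)` for a Liouville number `ξ`
    (∀ ξ : ℝ, Liouville ξ → Good (IntermediateField.adjoin ℚ {ξ})) := by
  refine ⟨fun q hq => ⟨Pool.Agent.R347.LF.LL hq ⊥, fun x => (ap_iff hq x).symm⟩,
    ⟨Pool.Agent.R347.LF.two_le_qL, fun L hL => ?_⟩, fun q hq L hL => good_of hq L hL, ?_⟩
  · exact Pool.Agent.R347.LF.trdeg_eq L fun A =>
      (hL _).2 ((ap_iff Pool.Agent.R347.LF.two_le_qL _).2 (Pool.Agent.R347.LF.xiL_ap ⊥ A))
  · intro ξ hξ
    obtain ⟨q, hq, -, hap⟩ := Pool.Agent.R347.LF.liouville_ap hξ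
    refine good_of hq _ ?_
    have hle : IntermediateField.adjoin ℚ {ξ} ≤ Pool.Agent.R347.LF.LL hq ⊥ := by
      rw [IntermediateField.adjoin_le_iff, Set.singleton_subset_iff]
      exact hap ⊥
    exact fun x hx => (ap_iff hq x).2 (hle hx)

end Pool.Agent.Results.MP_a89d6d_nt.LiouvilleCoefficients
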