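import Pool.Agent.R523.CritArr

/-!
# A criterion of Gelfond type for the algebraic independence of `π` and another number
-/

set_option autoImplicit false

namespace Pool.Agent.Results.MP_a89d6d_nt.PiCriterion

open Finset Polynomial Filter

/-- the value at `(π, t)` of the integer polynomial with coefficients `a i j`, of degree at most
`m` in the first and at most `n` in the second variable -/
noncomputable def val (m n : ℕ) (t : ℂ) (a : Fin (m + 1) → Fin (n + 1) → ℤ) : ℂ :=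
  ∑ i, ∑ j, (a i j : ℂ) * (Real.pi : ℂ) ^ (i : ℕ) * t ^ (j : ℕ)

/-- some nonzero integer polynomial with coefficients at most `X` in absolute value has a value at
`(π, t)` of absolute value at most `X ^ (-w)` -/
def Small (m n : ℕ) (t : ℂ) (w X : ℝ) : Prop :=
  ∃ a : Fin (m + 1) → Fin (n + 1) → ℤ, a ≠ 0 ∧ (∀ i j, |(a i j : ℝ)| ≤ X) ∧
    ‖val m n t a‖ ≤ X ^ (-w)

/-- some nonzero integer polynomial vanishes at `(π, t)` -/
def Rel (m n : ℕ) (t : ℂ) : Prop :=
  ∃ a : Fin (m + 1) → Fin (n + 1) → ℤ, a ≠ 0 ∧ val m n t a = 0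

theorem hard (m n : ℕ) (hn : 1 ≤ n) : ∃ W : ℝ, 0 < W ∧ ∀ (t : ℂ) (w : ℝ), W < w → ∀ X₀ : ℝ,
    (∀ X, X₀ ≤ X → Small m n t w X) → Rel m n t := by
  obtain ⟨κ, c, hκ, hc, hmeas⟩ := Pool.Agent.TH456.TM.measT_pi (2 * n * m)
  have hnR : (1 : ℝ) ≤ n := by exact_mod_cast hn
  refine ⟨2 * n - 1 + 2 * n * κ, by
    have : 0 ≤ 2 * (n : ℝ) * κ := by positivity
    linarith, fun t w hw X₀ h => ?_⟩
  exact Pool.Agent.R523.Gel.crit_arr (Real.pi : ℂ) t m n hn κ c hκ hc
    (fun R hR hRd H hH hRH => hmeas R hR hRd H hH hRH) w hw X₀ h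

theorem easy (m n : ℕ) (t : ℂ) (w : ℝ) (h : Rel m n t) : ∃ X₀ : ℝ, ∀ X, X₀ ≤ X → Small m n t w X := by
  obtain ⟨a, ha0, ha⟩ := h
  refine ⟨1 + ∑ i, ∑ j, |(a i j : ℝ)|, fun X hX => ⟨a, ha0, fun i j => ?_, ?_⟩⟩
  · have h1 : |(a i j : ℝ)| ≤ ∑ j, |(a i j : ℝ)| :=
      Finset.single_le_sum (f := fun j => |(a i j : ℝ)|) (fun _ _ => abs_nonneg _) (mem_univ j)
    have h2 : ∑ j, |(a i j : ℝ)| ≤ ∑ i, ∑ j, |(a i j : ℝ)| :=
      Finset.single_le_sum (f := fun i => ∑ j, |(a i j : ℝ)|)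
        (fun _ _ => Finset.sum_nonneg fun _ _ => abs_nonneg _) (mem_univ i)
    linarith
  · rw [ha, norm_zero]
    have h1 : 0 ≤ ∑ i, ∑ j, |(a i j : ℝ)| :=
      Finset.sum_nonneg fun _ _ => Finset.sum_nonneg fun _ _ => abs_nonneg _
    exact Real.rpow_nonneg (by linarith) _

/-- For all `m`, `n` there is `W`, depending only on `m` and `n`, such that for every complex number
`t` (for instance an odd zeta value): (1) if `w > W` and `Small m n t w X` for all large `X` then some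
nonzero integer polynomial of degrees at most `m` and `n` vanishes at `(π, t)`, and conversely;
(2) the same for sequences of values of `X`; (3) no nonzero integer polynomial vanishes at `(π, t)` if
and only if, for all `m` and `n` and some (or: every) `w > W m n`, there are arbitrarily large `X` for
which `Small m n t w X` is false. -/
theorem result : ∃ W : ℕ → ℕ → ℝ, (∀ m n, 0 < W m n) ∧
    (∀ m n : ℕ, 1 ≤ n → ∀ (t : ℂ) (w : ℝ), W m n < w →
      ((∃ X₀ : ℝ, ∀ X, X₀ ≤ X → Small m n t w X) ↔ Rel m n t)) ∧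
    (∀ m n : ℕ, 1 ≤ n → ∀ (t : ℂ) (l w : ℝ), 1 ≤ l → l * W m n < w →
      ∀ X : ℕ → ℝ, (∀ k, 1 ≤ X k) → Tendsto X atTop atTop → (∀ k, X (k + 1) ≤ X k ^ l) →
        (∀ k, Small m n t w (X k)) → Rel m n t) ∧
    (∀ t : ℂ, (∀ P : ℤ[X][X], P ≠ 0 → aevalAeval (Real.pi : ℂ) t P ≠ 0) ↔
      ∀ m n : ℕ, 1 ≤ n → ∃ w : ℝ, W m n < w ∧ ∀ X₀ : ℝ, ∃ X : ℝ, X₀ ≤ X ∧ ¬ Small m n t w X) := by
  choose W hW0 hW using fun m n : ℕ => (show ∃ W : ℝ, 0 < W ∧ (1 ≤ n → ∀ (t : ℂ) (w : ℝ), W < w →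
      ∀ X₀ : ℝ, (∀ X, X₀ ≤ X → Small m n t w X) → Rel m n t) by
    by_cases hn : 1 ≤ n
    · obtain ⟨W, h1, h2⟩ := hard m n hn
      exact ⟨W, h1, fun _ => h2⟩
    · exact ⟨1, one_pos, fun h => absurd h hn⟩)
  refine ⟨W, hW0, fun m n hn t w hw => ⟨fun ⟨X₀, h⟩ => hW m n hn t w hw X₀ h, easy m n t w⟩,
    ?_, ?_⟩
  · intro m n hn t l w hl hw X hX1 hX hXl h
    have hl0 : 0 < l := by linarith
    have hw0 : 0 ≤ w := by nlinarith [mul_pos hl0 (hW0 m n)]
    refine hW m n hn t (w / l) ?_ (X 0) fun Y hY =>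
      Pool.Agent.R523.Gel.of_seq (fun X w => Small m n t w X) ?_ l w hl0 hw0 X hX1 hX hXl h Y hY
    · rw [lt_div_iff₀ hl0]
      linarith [mul_comm l (W m n)]
    · rintro X Y w w' _ hXY hww ⟨a, ha0, haX, hav⟩
      exact ⟨a, ha0, fun i j => (haX i j).trans hXY, hav.trans hww⟩
  · intro t
    have hev : ∀ P : ℤ[X][X], aevalAeval (Real.pi : ℂ) t P =
        Pool.Agent.TH456.TM.evR (Real.pi : ℂ) t P := fun P => by
      rw [Pool.Agent.TH456.TM.evR_apply, Pool.Agent.TH456.TM.vl_eq]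
    constructor
    · intro h m n hn
      refine ⟨W m n + 1, by linarith, fun X₀ => ?_⟩
      by_contra hcon
      push Not at hcon
      obtain ⟨a, ha0, ha⟩ := hW m n hn t (W m n + 1) (by linarith) X₀ hcon
      refine h (Pool.Agent.R523.Gel.toP m n a) ?_ ?_
      · intro h0
        apply ha0
        rw [← Pool.Agent.R523.Gel.toP_coeff' m n a, h0]
        funext i j
        simp
      · rw [hev, Pool.Agent.R523.Gel.evR_eq (Real.pi : ℂ) t m n _
          (Pool.Agent.R523.Gel.toP_xd m n a) (Pool.Agent.R523.Gel.toP_natDegree m n a),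
          Pool.Agent.R523.Gel.toP_coeff']
        exact ha
    · intro h P hP hP0
      obtain ⟨m, hm⟩ : ∃ m, m = Pool.Agent.R523.Gel.xd P := ⟨_, rfl⟩
      obtain ⟨n, hn⟩ : ∃ n, n = P.natDegree + 1 := ⟨_, rfl⟩
      obtain ⟨w, hw, hX⟩ := h m n (by omega)
      rw [hev, Pool.Agent.R523.Gel.evR_eq (Real.pi : ℂ) t m n P hm.ge (by omega)] at hP0
      have hrel : Rel m n t := by
        refine ⟨fun i j => (P.coeff j).coeff i, ?_, hP0⟩
        intro h0
        apply hP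
        ext j i
        rw [coeff_zero, coeff_zero]
        by_cases hj : j < n + 1
        · by_cases hi : i < m + 1
          · exact congrFun (congrFun h0 ⟨i, hi⟩) ⟨j, hj⟩
          · exact coeff_eq_zero_of_natDegree_lt (by
              have := Pool.Agent.R523.Gel.coeff_le_xd P j
              omega)
        · rw [coeff_eq_zero_of_natDegree_lt (show P.natDegree < j by omega), coeff_zero]
      obtain ⟨X₀, hX₀⟩ := easy m n t w hrel
      obtain ⟨X, h1, h2⟩ := hX X₀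
      exact h2 (hX₀ X h1)

end Pool.Agent.Results.MP_a89d6d_nt.PiCriterion
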